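import Pool.Agent.Y116.MT.Trace

/-!
# Representations which occur in an object modulo numerical equivalence: definition
-/

set_option autoImplicit false

open CategoryTheory Limits MonoidalCategory
open Pool.Agent.Y116.MT

namespace Pool.Agent.Zk74.KG

universe v u

variable {C : Type u} [Category.{v} C] [Preadditive C] [Linear ℚ C] [MonoidalCategory C]
  [SymmetricCategory C] [RightRigidCategory C]

/-- Every irreducible rational representation of `G` with a nonzero vector fixed by `H` is dual to
one which occurs in `N` modulo numerical equivalence: each element `∑ c(g) g` of the rational group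
ring for which `∑ c(g⁻¹) g` is a numerically trivial endomorphism of `N` is zero modulo `H`. -/
def SeesNum {G : Type} [Group G] [Fintype G] {N : C} (b : G →* End N) (H : Subgroup G) : Prop :=
  ∀ c : G → ℚ, (∀ y : N ⟶ N, tr ((∑ g, c g⁻¹ • (b g : N ⟶ N)) ≫ y) = 0) →
    ∀ g, ∑ᶠ h : H, c (g * h) = 0

end Pool.Agent.Zk74.KG
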