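import Pool.Agent.Zk74.KG.Main
import Pool.Agent.Zk74.KG.NumDefs

/-!
# Descent from isotrivial products, numerical form
-/

set_option autoImplicit false
set_option linter.unusedSectionVars false
set_option backward.isDefEq.respectTransparency false
set_option backward.defeqAttrib.useBackward true

open CategoryTheory Limits MonoidalCategory
open Pool.Agent.Y112.SR Pool.Agent.Y112.KD Pool.Agent.R905 Pool.Agent.Zk51.KT
open Pool.Agent.X252.GA Pool.Agent.Y116.MT

namespace Pool.Agent.Zk74.KG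

universe v u w

variable {C : Type u} [Category.{v} C] [Preadditive C] [Linear ℚ C] [MonoidalCategory C]
  [MonoidalPreadditive C] [MonoidalLinear ℚ C] [SymmetricCategory C] [RightRigidCategory C]
  [IsIdempotentComplete C] [HasBinaryBiproducts C] {K : Type w} [Field K]
  (R : SuperRealisation C K) {G : Type} [Group G] [Fintype G]

lemma trq_zero (hU : UnitQ C) {N : C} {z : N ⟶ N} (h : tr z = 0) : trq hU N (z : N ⟶ N) = 0 := by
  apply hU.inj
  rw [← trq_spec hU z, h, zero_smul]

lemma tr_zero_iff (hU : UnitQ C) {N : C} {z : N ⟶ N} :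
    tr z = 0 ↔ trq hU N (z : N ⟶ N) = 0 := by
  refine ⟨trq_zero hU, fun h => ?_⟩
  rw [show tr z = tr (X := N) z from rfl, trq_spec hU z, h, zero_smul]

/-- The coefficient at one of `f · ∑ tr(b(g) y) g`. -/
lemma coeff_uel (hU : UnitQ C) {N : C} (b : G →* End N) (y : N ⟶ N) (f : MonoidAlgebra ℚ G) :
    (f * uel hU b y).coeff 1 = trq hU N ((act b (dag f) : N ⟶ N) ≫ y : N ⟶ N) := by
  rw [coeff_mul']
  have h3 : (act b (dag f) : N ⟶ N) ≫ y = ∑ g, f.coeff g⁻¹ • ((b g : N ⟶ N) ≫ y) := by
    unfold dag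
    rw [act_sum, Preadditive.sum_comp]
    exact Finset.sum_congr rfl fun g _ => Linear.smul_comp _ _ _ _ _ _
  have h4 : trq hU N ((act b (dag f) : N ⟶ N) ≫ y : N ⟶ N) =
      ∑ g, f.coeff g⁻¹ * trq hU N ((b g : N ⟶ N) ≫ y : N ⟶ N) := by
    rw [h3]
    refine (map_sum (trq hU N) (fun g => (f.coeff g⁻¹ • ((b g : N ⟶ N) ≫ y) : N ⟶ N)) _).trans ?_
    exact Finset.sum_congr rfl fun g _ => (trq hU N).map_smul _ _
  rw [h4]
  symm
  refine Fintype.sum_equiv (Equiv.inv G) _ _ fun g => ?_
  rw [Equiv.inv_apply]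
  congr 1
  unfold uel
  rw [coeff_sum']
  classical
  rw [Finset.sum_eq_single g]
  · simp
  · intro g' _ hg'
    simp [MonoidAlgebra.coeff_single, Finsupp.single_apply, hg']
  · simp

lemma act_dag (N : C) (b : G →* End N) (f : MonoidAlgebra ℚ G) :
    (act b (dag f) : N ⟶ N) = ∑ g, f.coeff g⁻¹ • (b g : N ⟶ N) := by
  unfold dag
  rw [act_sum]

include R in
/-- **Descent from the isotrivial product**, numerical form. -/
theorem descent_num (hU : UnitQ C) {M N T : C} (a : G →* End M) (b : G →* End N)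
    (hT : IsQuot (diag a b) ⊤ T) (hK : IsKimuraFinite (T ⊗ Nᘁ))
    (H : Subgroup G) (hs : SeesNum b H) : nA H ∈ kI R hU a := by
  obtain ⟨e, he, hi, hex⟩ := exists_idem (kI R hU a) (kI_right R hU a)
  have h0 : (1 - e) * nA H = 0 := by
    have h7 := hs (fun g => (1 - e : MonoidAlgebra ℚ G).coeff g) (fun y => by
      rw [← act_dag N b (1 - e), tr_zero_iff hU, ← coeff_uel, sub_mul, one_mul,
        hex _ (uel_mem R hU a b hT hK y), sub_self]
      simp)
    apply ext'
    intro g
    rw [coeff_mul_nA, h7 g]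
    simp
  rw [sub_mul, one_mul, sub_eq_zero] at h0
  rw [h0]
  exact kI_right R hU a e he _

/-- The elements of the group ring whose dual acts as a numerically trivial endomorphism. -/
noncomputable def nI (hU : UnitQ C) {N : C} (b : G →* End N) : Ideal (MonoidAlgebra ℚ G) where
  carrier := {x | ∀ y : N ⟶ N, trq hU N ((act b (dag x) : N ⟶ N) ≫ y : N ⟶ N) = 0}
  add_mem' := by
    intro x x' h h' y
    rw [← coeff_uel, add_mul]
    have := h y
    have h2 := h' y
    rw [← coeff_uel] at this h2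
    rw [show (x * uel hU b y + x' * uel hU b y).coeff 1 =
      (x * uel hU b y).coeff 1 + (x' * uel hU b y).coeff 1 from by simp, this, h2, add_zero]
  zero_mem' := by
    intro y
    rw [← coeff_uel, zero_mul]
    simp
  smul_mem' := by
    intro x z h y
    rw [smul_eq_mul, dag_mul, act_mul, Category.assoc]
    have h1 := h (y ≫ (act b (dag x) : N ⟶ N))
    rw [← Category.assoc] at h1
    rw [trq_comm' R hU] at h1
    exact h1

lemma mem_nI (hU : UnitQ C) {N : C} (b : G →* End N) (x : MonoidAlgebra ℚ G) :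
    x ∈ nI R hU b ↔ ∀ y : N ⟶ N, trq hU N ((act b (dag x) : N ⟶ N) ≫ y : N ⟶ N) = 0 := Iff.rfl

lemma nI_right (hU : UnitQ C) {N : C} (b : G →* End N) :
    ∀ x ∈ nI R hU b, ∀ z, x * z ∈ nI R hU b := by
  intro x hx z y
  rw [dag_mul, act_mul, Category.assoc]
  exact hx _

include R in
theorem sees_iff (hU : UnitQ C) {N : C} (b : G →* End N) (hC : R.CPlus N) (H : Subgroup G) :
    Sees R b H ↔ SeesNum b H := by
  constructor
  · intro hs c hc
    obtain ⟨y, hy⟩ := (cplus_iff R N).1 hC
    obtain ⟨e, he, hi, hex⟩ := exists_idem (nI R hU b) (nI_right R hU b)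
    have h5 : (act b (dag e) : N ⟶ N) ≫ (act b (dag e) : N ⟶ N) = (act b (dag e) : N ⟶ N) := by
      rw [← act_mul, ← dag_mul, hi.eq]
    have h6 := map_eq_zero R hU h5 hy (he y)
    obtain ⟨x, hx⟩ : ∃ x : MonoidAlgebra ℚ G, ∀ g, x.coeff g = c g :=
      ⟨∑ g, MonoidAlgebra.single g (c g), fun g => by
        classical
        rw [coeff_sum', Finset.sum_eq_single g]
        · simp
        · intro g' _ hg'
          simp [MonoidAlgebra.coeff_single, Finsupp.single_apply, hg']
        · simp⟩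
    have h7 : (act b (dag x) : N ⟶ N) = ∑ g, c g⁻¹ • (b g : N ⟶ N) := by
      rw [act_dag]
      exact Finset.sum_congr rfl fun g _ => by rw [hx]
    have h8 : x ∈ nI R hU b := by
      intro y
      rw [h7]
      exact trq_zero hU (hc y)
    have h9 : R.H.map (act b (dag x) : N ⟶ N) = 0 := by
      rw [← hex x h8, dag_mul, act_mul, Functor.map_comp, h6]
      first
      | exact comp_zero
      | exact zero_comp
    exact hs c (by rw [← h7, h9])
  · intro hs c hc
    refine hs c fun y => ?_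
    rw [tr_zero_iff hU]
    have hch := R_charZero R
    have h1 := real_tr R hU ((∑ g, c g⁻¹ • (b g : N ⟶ N)) ≫ y)
    rw [Functor.map_comp, hc, zero_comp, zero_comp] at h1
    rw [show (ModuleCat.Hom.hom (0 : R.H.obj N ⟶ R.H.obj N)) = 0 from rfl, map_zero] at h1
    exact_mod_cast h1

/-- A free action with nonzero Euler characteristic. -/
theorem free_sees (hU : UnitQ C) {N : C} (b : G →* End N) (h1 : ∀ g, g ≠ 1 → tr (b g : N ⟶ N) = 0)
    (h2 : tr (𝟙 N) ≠ 0) : SeesNum b (⊥ : Subgroup G) := by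
  classical
  intro c hc g
  have h3 : ∀ h, c h = 0 := by
    intro h
    have h4 := trq_zero hU (hc (b h : N ⟶ N))
    have h5 : (∑ g, c g⁻¹ • (b g : N ⟶ N)) ≫ (b h : N ⟶ N) =
        ∑ g, c g⁻¹ • (b (h * g) : N ⟶ N) := by
      rw [Preadditive.sum_comp]
      refine Finset.sum_congr rfl fun g _ => ?_
      rw [Linear.smul_comp, map_mul, End.mul_def]
    rw [h5] at h4
    have h6 : trq hU N (∑ g, c g⁻¹ • (b (h * g) : N ⟶ N) : N ⟶ N) =
        ∑ g, c g⁻¹ * trq hU N (b (h * g)) := by
      refine (map_sum (trq hU N) (fun g => (c g⁻¹ • (b (h * g) : N ⟶ N) : N ⟶ N)) _).trans ?_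
      exact Finset.sum_congr rfl fun g _ => (trq hU N).map_smul _ _
    rw [h6, Finset.sum_eq_single h⁻¹] at h4
    · rw [inv_inv, mul_inv_cancel, map_one] at h4
      refine (mul_eq_zero.1 h4).resolve_right fun h7 => h2 ?_
      exact (tr_zero_iff hU).2 h7
    · intro g' _ hg'
      have : trq hU N (b (h * g')) = 0 := trq_zero hU (h1 _ fun h8 => hg' (by
        rw [eq_inv_iff_mul_eq_one]
        exact mul_eq_one_comm.1 h8 ▸ by simpa using mul_eq_one_comm.1 h8))
      rw [this, mul_zero]
    · simp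
  simp [h3]

end Pool.Agent.Zk74.KG
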