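import Pool.Agent.X252.GA

/-!
# Two-sided ideals of rational group rings
-/

set_option autoImplicit false

namespace Pool.Agent.Zk74.KG

open Finset Pool.Agent.X252.GA

variable {G : Type} [Group G] [Fintype G]

/-- The anti-involution `g ↦ g⁻¹`. -/
noncomputable def dag (x : MonoidAlgebra ℚ G) : MonoidAlgebra ℚ G :=
  ∑ g, MonoidAlgebra.single g (x.coeff g⁻¹)

lemma coeff_sum' {ι : Type} (s : Finset ι) (f : ι → MonoidAlgebra ℚ G) (g : G) :
    (∑ j ∈ s, f j).coeff g = ∑ j ∈ s, (f j).coeff g := by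
  rw [MonoidAlgebra.coeff_sum, Finsupp.finset_sum_apply]

lemma coeff_dag (x : MonoidAlgebra ℚ G) (g : G) : (dag x).coeff g = x.coeff g⁻¹ := by
  classical
  unfold dag
  rw [coeff_sum']
  simp [MonoidAlgebra.coeff_single, Finsupp.single_apply]

lemma ext' {x y : MonoidAlgebra ℚ G} (h : ∀ g, x.coeff g = y.coeff g) : x = y :=
  MonoidAlgebra.coeff_injective (Finsupp.ext h)

lemma coeff_mul' (x y : MonoidAlgebra ℚ G) (g : G) :
    (x * y).coeff g = ∑ h, x.coeff h * y.coeff (h⁻¹ * g) := by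
  rw [MonoidAlgebra.coeff_mul_apply_left, Finsupp.sum_fintype]
  intro i
  simp

lemma dag_mul (x y : MonoidAlgebra ℚ G) : dag (x * y) = dag y * dag x := by
  apply ext'
  intro g
  rw [coeff_dag, coeff_mul', coeff_mul']
  refine Fintype.sum_equiv (Equiv.mulLeft g) _ _ fun h => ?_
  rw [coeff_dag, coeff_dag, Equiv.coe_mulLeft]
  have e1 : (g * h)⁻¹ = h⁻¹ * g⁻¹ := mul_inv_rev _ _
  have e2 : ((g * h)⁻¹ * g)⁻¹ = h := by group
  rw [e2, e1, mul_comm]

lemma dag_dag (x : MonoidAlgebra ℚ G) : dag (dag x) = x := by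
  apply ext'
  intro g
  rw [coeff_dag, coeff_dag, inv_inv]

lemma eq_zero_of_dag {x : MonoidAlgebra ℚ G} (h : x * dag x = 0) : x = 0 := by
  have h1 : (x * dag x).coeff 1 = ∑ g, x.coeff g * x.coeff g := by
    rw [coeff_mul']
    refine Finset.sum_congr rfl fun g _ => ?_
    rw [coeff_dag]
    congr 2
    group
  rw [h] at h1
  have h2 : ∑ g, x.coeff g * x.coeff g = 0 := by rw [← h1]; simp
  apply ext'
  intro g
  have h3 := (Finset.sum_eq_zero_iff_of_nonneg (fun g _ => mul_self_nonneg (x.coeff g))).1 h2 g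
    (mem_univ g)
  simpa using h3

/-- A two-sided ideal is generated by a central idempotent. -/
theorem exists_idem (I : Ideal (MonoidAlgebra ℚ G)) (hI : ∀ x ∈ I, ∀ y, x * y ∈ I) :
    ∃ e ∈ I, IsIdempotentElem e ∧ ∀ x ∈ I, e * x = x := by
  obtain ⟨e, he, hIe⟩ := IsSemisimpleRing.ideal_eq_span_idempotent I
  have heI : e ∈ I := by rw [hIe]; exact Ideal.mem_span_singleton_self e
  have h1 : ∀ x ∈ I, x * e = x := by
    intro x hx
    rw [hIe, Ideal.mem_span_singleton'] at hx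
    obtain ⟨y, rfl⟩ := hx
    rw [mul_assoc, he.eq]
  refine ⟨e, heI, he, fun x hx => ?_⟩
  obtain ⟨z, hz⟩ : ∃ z, z = (1 - e) * x := ⟨_, rfl⟩
  have h2 : ∀ w, z * w * z = 0 := by
    intro w
    have h3 : x * w * (1 - e) = 0 := by
      rw [mul_sub, mul_one, h1 _ (hI x hx w), sub_self]
    calc z * w * z = (1 - e) * (x * w * (1 - e)) * x := by rw [hz]; noncomm_ring
      _ = 0 := by rw [h3, mul_zero, zero_mul]
  have h4 : z * dag z = 0 := by
    apply eq_zero_of_dag
    rw [dag_mul z (dag z), dag_dag]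
    calc z * dag z * (z * dag z) = z * dag z * z * dag z := by noncomm_ring
      _ = 0 := by rw [h2, zero_mul]
  have h5 := eq_zero_of_dag h4
  rw [hz, sub_mul, one_mul, sub_eq_zero] at h5
  exact h5.symm

theorem nA_mem (I : Ideal (MonoidAlgebra ℚ G)) (hI : ∀ x ∈ I, ∀ y, x * y ∈ I)
    {u : MonoidAlgebra ℚ G} (hu : u ∈ I) (H : Subgroup G)
    (h : ∀ f : MonoidAlgebra ℚ G, IsIdempotentElem f → f * u = 0 → f * nA H = 0) : nA H ∈ I := by
  obtain ⟨e, he, hi, hex⟩ := exists_idem I hI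
  have h1 := h (1 - e) hi.one_sub (by rw [sub_mul, one_mul, hex u hu, sub_self])
  rw [sub_mul, one_mul, sub_eq_zero] at h1
  rw [h1]
  exact hI e he _

lemma coeff_mul_nA (f : MonoidAlgebra ℚ G) (H : Subgroup G) (g : G) :
    (f * nA H).coeff g = ∑ᶠ h : H, f.coeff (g * h) := by
  classical
  unfold nA
  rw [Finset.mul_sum, coeff_sum', finsum_eq_sum_of_fintype]
  have h1 : ∀ h : G, (f * MonoidAlgebra.single h (1 : ℚ)).coeff g = f.coeff (g * h⁻¹) := by
    intro h
    rw [MonoidAlgebra.coeff_mul_single_apply, mul_one]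
  rw [Finset.sum_congr rfl fun h _ => h1 h]
  have h2 : ∑ h : G with h ∈ H, f.coeff (g * h⁻¹) = ∑ h : G with h ∈ H, f.coeff (g * h) := by
    refine Finset.sum_bij (fun h _ => h⁻¹) ?_ ?_ ?_ ?_
    · intro h hh
      rw [Finset.mem_filter] at hh ⊢
      exact ⟨mem_univ _, H.inv_mem hh.2⟩
    · intro a _ b _ hab
      exact inv_injective hab
    · intro b hb
      rw [Finset.mem_filter] at hb
      exact ⟨b⁻¹, by rw [Finset.mem_filter]; exact ⟨mem_univ _, H.inv_mem hb.2⟩, inv_inv b⟩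
    · intro a _
      rfl
  rw [h2]
  exact (Finset.sum_subtype (Finset.univ.filter fun h : G => h ∈ H) (p := fun h => h ∈ H)
    (by intro x; simp) fun h => f.coeff (g * h))

lemma nA_mul_nA (H : Subgroup G) : nA H * nA H = (Nat.card H : ℚ) • nA H := by
  classical
  conv_lhs => rw [show (nA H : MonoidAlgebra ℚ G) * nA H =
    (∑ g : G with g ∈ H, MonoidAlgebra.single g (1 : ℚ)) * nA H from rfl, Finset.sum_mul]
  rw [Finset.sum_congr rfl fun g hg => single_mul_nA (Finset.mem_filter.1 hg).2,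
    Finset.sum_const, ← Nat.cast_smul_eq_nsmul ℚ]
  congr 2
  rw [Nat.card_eq_fintype_card, Fintype.card_subtype]

lemma nA_bot : nA (⊥ : Subgroup G) = 1 := by
  classical
  unfold nA
  have : (Finset.univ.filter fun g : G => g ∈ (⊥ : Subgroup G)) = {1} := by
    ext g
    simp [Subgroup.mem_bot]
  rw [this, Finset.sum_singleton, MonoidAlgebra.one_def]

end Pool.Agent.Zk74.KG
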