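import Pool.Agent.R905.Defs
import Pool.Agent.Y112.SR.Defs

/-!
# Finite group actions on objects of a tensor category: definitions
-/

set_option autoImplicit false

open CategoryTheory Limits MonoidalCategory
open Pool.Agent.Y112.SR

namespace Pool.Agent.Zk74.KG

universe v u w

variable {C : Type u} [Category.{v} C] [Preadditive C] [Linear ℚ C] [MonoidalCategory C]

open Classical in
/-- The projector `|H|⁻¹ ∑_{h ∈ H} a(h)` to the invariants of the subgroup `H`. -/
noncomputable def avg {G : Type} [Group G] [Fintype G] {M : C} (a : G →* End M) (H : Subgroup G) :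
    M ⟶ M :=
  (Nat.card H : ℚ)⁻¹ • ∑ g : G with g ∈ H, (a g : M ⟶ M)

/-- `T` is the quotient `M / H`, the direct summand of `M` cut out by the projector to the
invariants of `H`. -/
def IsQuot {G : Type} [Group G] [Fintype G] {M : C} (a : G →* End M) (H : Subgroup G) (T : C) :
    Prop :=
  ∃ (i : T ⟶ M) (r : M ⟶ T), i ≫ r = 𝟙 T ∧ r ≫ i = avg a H

/-- The diagonal action on `M ⊗ N`. -/
def diag {G : Type} [Group G] {M N : C} (a : G →* End M) (b : G →* End N) : G →* End (M ⊗ N) where
  toFun g := (a g : M ⟶ M) ⊗ₘ (b g : N ⟶ N)
  map_one' := by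
    rw [map_one, map_one]
    exact id_tensorHom_id M N
  map_mul' g h := by
    rw [map_mul, map_mul, End.mul_def, End.mul_def, End.mul_def]
    exact (tensorHom_comp_tensorHom _ _ _ _).symm

variable {K : Type w} [Field K]

/-- Every irreducible rational representation of `G` with a nonzero vector fixed by `H` is dual to
one which occurs in the realisation of `N`: each element `∑ c(g) g` of the rational group ring for
which `∑ c(g⁻¹) g` acts as zero on the realisation of `N` is zero modulo `H`. -/
def Sees [SymmetricCategory C] {G : Type} [Group G] [Fintype G] (R : SuperRealisation C K)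
    {N : C} (b : G →* End N) (H : Subgroup G) : Prop :=
  ∀ c : G → ℚ, R.H.map (∑ g, c g⁻¹ • (b g : N ⟶ N)) = 0 → ∀ g, ∑ᶠ h : H, c (g * h) = 0

end Pool.Agent.Zk74.KG
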