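import Pool.Agent.Zk74.KG.Kim
import Pool.Agent.N64.AF.P1

/-!
# The dual of a Kimura finite object is Kimura finite
-/

set_option autoImplicit false
set_option linter.unusedSectionVars false
set_option backward.isDefEq.respectTransparency false
set_option backward.defeqAttrib.useBackward true

open CategoryTheory Limits MonoidalCategory
open Pool.Agent.Y112.SR Pool.Agent.Y112.KD Pool.Agent.R905 Pool.Agent.Zk51.KT

namespace Pool.Agent.Zk74.KG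

universe v u w

variable {C : Type u} [Category.{v} C] [Preadditive C] [Linear ℚ C] [MonoidalCategory C]
  [MonoidalPreadditive C] [MonoidalLinear ℚ C] [SymmetricCategory C] [RightRigidCategory C]
  [IsIdempotentComplete C] {K : Type w} [Field K] (R : SuperRealisation C K)

lemma leftMate_inj {X : C} (f : Xᘁ ⟶ Xᘁ) (h : (leftAdjointMate f : X ⟶ X) = 0) : f = 0 := by
  have h1 := leftAdjointMate_comp_evaluation f
  have h2 : f ▷ X ≫ ε_ X Xᘁ = 0 := by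
    refine h1.symm.trans ?_
    change Xᘁ ◁ (leftAdjointMate f : X ⟶ X) ≫ ε_ X Xᘁ = 0
    rw [h]
    simp
  have h3 := tensorRightHomEquiv_whiskerRight_comp_evaluation (X := X) f
  rw [h2] at h3
  have h4 : (tensorRightHomEquiv Xᘁ X Xᘁ (𝟙_ C)) 0 = 0 := by
    simp [tensorRightHomEquiv]
  rw [h4] at h3
  have h5 : f = (f ≫ (λ_ Xᘁ).inv) ≫ (λ_ Xᘁ).hom := by simp
  rw [h5, ← h3, zero_comp]

lemma map_leftMate {X : C} (f : Xᘁ ⟶ Xᘁ) (h : R.H.map f = 0) :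
    R.H.map (leftAdjointMate f : X ⟶ X) = 0 := by
  have h1 : ∀ (Z : C), R.H.map (Z ◁ f) = 0 := fun Z => by
    rw [Functor.Monoidal.map_whiskerLeft, h]
    simp
  have h2 : ∀ (Z Z' : C), R.H.map ((Z ◁ f) ▷ Z') = 0 := fun Z Z' => by
    rw [Functor.Monoidal.map_whiskerRight, h1]
    simp
  change R.H.map ((λ_ X).inv ≫ η_ X Xᘁ ▷ X ≫ (X ◁ f) ▷ X ≫ (α_ X Xᘁ X).hom ≫
    X ◁ ε_ X Xᘁ ≫ (ρ_ X).hom) = 0
  rw [Functor.map_comp, Functor.map_comp, Functor.map_comp, h2]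
  simp

lemma mate_pow {X : C} (f : End Xᘁ) (n : ℕ) :
    (leftAdjointMate ((f ^ n : End Xᘁ) : Xᘁ ⟶ Xᘁ) : X ⟶ X) =
      ((en (leftAdjointMate (f : Xᘁ ⟶ Xᘁ) : X ⟶ X)) ^ n : End X) := by
  induction n with
  | zero =>
    rw [pow_zero, pow_zero]
    exact leftAdjointMate_id (X := Xᘁ)
  | succ n ih =>
    rw [pow_succ, pow_succ', End.mul_def, End.mul_def, ← ih]
    exact comp_leftAdjointMate (f := (f : Xᘁ ⟶ Xᘁ)) (g := ((f ^ n : End Xᘁ) : Xᘁ ⟶ Xᘁ))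

lemma homNil_dual {X : C} (h : HomNil R X) : HomNil R Xᘁ := by
  intro f hf
  obtain ⟨n, hn⟩ := h (en (leftAdjointMate (f : Xᘁ ⟶ Xᘁ) : X ⟶ X)) (map_leftMate R f hf)
  refine ⟨n, ?_⟩
  apply leftMate_inj
  rw [mate_pow, hn]

lemma dual_iso (X Y : C) [q : ExactPairing X Y] : Nonempty (Xᘁ ≅ Y) :=
  ⟨rightDualIso HasRightDual.exact q⟩

lemma pair_tp (N : C) : ∀ n, Nonempty (ExactPairing (tp N n) (tp Nᘁ n))
  | 0 => ⟨(exactPairingUnit : ExactPairing (𝟙_ C) (𝟙_ C))⟩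
  | n + 1 => by
    obtain ⟨q⟩ := pair_tp N n
    have q' : ExactPairing (tp N n ⊗ N) (Nᘁ ⊗ tp Nᘁ n) := ExactPairing.tensor
    exact ⟨exactPairingCongrRight (β_ _ _ : tp Nᘁ n ⊗ Nᘁ ≅ Nᘁ ⊗ tp Nᘁ n)⟩

lemma dual_tp (N : C) (n : ℕ) : ∃ X : C, X = tp N n ∧ Nonempty (Xᘁ ≅ tp Nᘁ n) := by
  obtain ⟨q⟩ := pair_tp N n
  refine ⟨tp N n, rfl, ?_⟩
  generalize tp N n = X at q
  exact dual_iso X (tp Nᘁ n) (q := q)

include R in
theorem kf_dual (hU : UnitQ C) {N : C} (h : IsKimuraFinite N) : IsKimuraFinite Nᘁ := by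
  have hc := R_charZero R
  have hR : Pool.Agent.N64.AF.IsReal ℚ R :=
    ⟨hU.ex, fun a f => by rw [R_smul]; rfl⟩
  refine kf_of_nil R hU (Pool.Agent.N64.AF.cplus_dual hR (h.cplus R)) fun n => ?_
  obtain ⟨X, hX, ⟨e⟩⟩ := dual_tp N n
  have h1 : HomNil R X := by
    rw [hX]
    exact (dec_tp (dec_of_kimura h) n).homNil R hU
  exact (homNil_dual R h1).retract e.inv e.hom e.inv_hom_id

end Pool.Agent.Zk74.KG
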