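import Pool.Agent.Zk74.KG.Kim
import Pool.Agent.Zk74.KG.Alg

/-!
# The ideal of the elements of the group ring which factor through Kimura finite objects
-/

set_option autoImplicit false
set_option linter.unusedSectionVars false
set_option backward.isDefEq.respectTransparency false
set_option backward.defeqAttrib.useBackward true

open CategoryTheory Limits MonoidalCategory
open Pool.Agent.Y112.SR Pool.Agent.Y112.KD Pool.Agent.R905 Pool.Agent.Zk51.KT
open Pool.Agent.X252.GA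

namespace Pool.Agent.Zk74.KG

universe v u w

variable {C : Type u} [Category.{v} C] [Preadditive C] [Linear ℚ C] [MonoidalCategory C]
  [MonoidalPreadditive C] [MonoidalLinear ℚ C] [SymmetricCategory C] [RightRigidCategory C]
  [IsIdempotentComplete C] [HasBinaryBiproducts C] {K : Type w} [Field K]
  (R : SuperRealisation C K) {G : Type} [Group G] [Fintype G]

/-- The action of the group ring. -/
noncomputable def act {M : C} (a : G →* End M) : MonoidAlgebra ℚ G →ₐ[ℚ] End M :=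
  MonoidAlgebra.lift ℚ (End M) G a

lemma act_single {M : C} (a : G →* End M) (g : G) (c : ℚ) :
    act a (MonoidAlgebra.single g c) = c • a g := by
  unfold act
  rw [MonoidAlgebra.lift_single]

lemma act_sum {M : C} (a : G →* End M) (c : G → ℚ) :
    act a (∑ g, MonoidAlgebra.single g (c g)) = ∑ g, c g • (a g : M ⟶ M) := by
  rw [map_sum]
  exact Finset.sum_congr rfl fun g _ => act_single a g (c g)

lemma act_mul {M : C} (a : G →* End M) (x y : MonoidAlgebra ℚ G) :
    (act a (x * y) : M ⟶ M) = (act a y : M ⟶ M) ≫ (act a x : M ⟶ M) := by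
  rw [map_mul, End.mul_def]

lemma avg_eq {M : C} (a : G →* End M) (H : Subgroup G) :
    avg a H = (Nat.card H : ℚ)⁻¹ • (act a (nA H) : M ⟶ M) := by
  classical
  unfold avg nA
  rw [map_sum]
  have : ∀ g : G, act a (MonoidAlgebra.single g (1 : ℚ)) = a g := fun g => by
    rw [act_single, one_smul]
  rw [Finset.sum_congr rfl fun g _ => this g]

lemma card_ne (H : Subgroup G) : (Nat.card H : ℚ) ≠ 0 := by
  have : Nat.card H ≠ 0 := Nat.card_pos.ne'
  exact_mod_cast this

lemma act_nA {M : C} (a : G →* End M) (H : Subgroup G) :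
    (act a (nA H) : M ⟶ M) = (Nat.card H : ℚ) • avg a H := by
  rw [avg_eq, smul_smul, mul_inv_cancel₀ (card_ne H), one_smul]

lemma avg_avg {M : C} (a : G →* End M) (H : Subgroup G) : avg a H ≫ avg a H = avg a H := by
  rw [avg_eq, Linear.smul_comp, Linear.comp_smul, ← act_mul, nA_mul_nA, map_smul]
  change (Nat.card H : ℚ)⁻¹ • (Nat.card H : ℚ)⁻¹ • (Nat.card H : ℚ) • (act a (nA H) : M ⟶ M) = _
  rw [smul_smul (Nat.card H : ℚ)⁻¹ (Nat.card H : ℚ), inv_mul_cancel₀ (card_ne H), one_smul]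

lemma exists_quot {M : C} (a : G →* End M) (H : Subgroup G) : ∃ T, IsQuot a H T := by
  obtain ⟨T, i, r, h1, h2⟩ := IsIdempotentComplete.idempotents_split M (avg a H) (avg_avg a H)
  exact ⟨T, i, r, h1, h2⟩

/-- The elements which factor through a Kimura finite object. -/
noncomputable def kI (hU : UnitQ C) {M : C} (a : G →* End M) : Ideal (MonoidAlgebra ℚ G) where
  carrier := {x | ∃ Q : C, IsKimuraFinite Q ∧ ∃ (u : M ⟶ Q) (v : Q ⟶ M),
    (act a x : M ⟶ M) = u ≫ v}
  add_mem' := by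
    rintro x y ⟨Q, hQ, u, v, h⟩ ⟨Q', hQ', u', v', h'⟩
    refine ⟨Q ⊞ Q', kf_biprod R hU hQ hQ', biprod.lift u u', biprod.desc v v', ?_⟩
    rw [biprod.lift_desc, ← h, ← h', map_add]
  zero_mem' := by
    refine ⟨𝟙_ C, kf_of_dec R hU ⟨𝟙 _, ?_⟩ dec_unit, 0, 0, ?_⟩
    · rw [R.par_unit, CategoryTheory.Functor.map_id, two_smul]
    · rw [map_zero, zero_comp]
  smul_mem' := by
    rintro x y ⟨Q, hQ, u, v, h⟩
    refine ⟨Q, hQ, u, v ≫ (act a x : M ⟶ M), ?_⟩
    rw [smul_eq_mul, act_mul, h, Category.assoc]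

lemma mem_kI (hU : UnitQ C) {M : C} (a : G →* End M) (x : MonoidAlgebra ℚ G) :
    x ∈ kI R hU a ↔ ∃ Q : C, IsKimuraFinite Q ∧ ∃ (u : M ⟶ Q) (v : Q ⟶ M),
      (act a x : M ⟶ M) = u ≫ v := Iff.rfl

lemma kI_right (hU : UnitQ C) {M : C} (a : G →* End M) :
    ∀ x ∈ kI R hU a, ∀ y, x * y ∈ kI R hU a := by
  rintro x ⟨Q, hQ, u, v, h⟩ y
  refine ⟨Q, hQ, (act a y : M ⟶ M) ≫ u, v, ?_⟩
  rw [act_mul, h, Category.assoc]

include R in
theorem quot_iff (hU : UnitQ C) {M : C} (a : G →* End M) {H : Subgroup G} {T : C}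
    (hT : IsQuot a H T) : IsKimuraFinite T ↔ nA H ∈ kI R hU a := by
  obtain ⟨i, r, h1, h2⟩ := hT
  constructor
  · intro h
    refine ⟨T, h, (Nat.card H : ℚ) • r, i, ?_⟩
    rw [Linear.smul_comp, h2, act_nA]
  · rintro ⟨Q, hQ, u, v, h⟩
    refine hQ.retract R hU (i ≫ ((Nat.card H : ℚ)⁻¹ • u)) (v ≫ r) ?_
    have h3 : ((Nat.card H : ℚ)⁻¹ • u) ≫ v = avg a H := by
      rw [Linear.smul_comp, ← h, avg_eq]
    calc (i ≫ ((Nat.card H : ℚ)⁻¹ • u)) ≫ v ≫ r = i ≫ (((Nat.card H : ℚ)⁻¹ • u) ≫ v) ≫ r := by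
          simp only [Category.assoc]
      _ = (i ≫ r) ≫ (i ≫ r) := by rw [h3, ← h2]; simp only [Category.assoc]
      _ = 𝟙 T := by rw [h1, Category.id_comp]

include R in
theorem one_iff (hU : UnitQ C) {M : C} (a : G →* End M) :
    IsKimuraFinite M ↔ (1 : MonoidAlgebra ℚ G) ∈ kI R hU a := by
  constructor
  · intro h
    refine ⟨M, h, 𝟙 M, 𝟙 M, ?_⟩
    rw [map_one, Category.id_comp]
    rfl
  · rintro ⟨Q, hQ, u, v, h⟩
    refine hQ.retract R hU u v ?_
    rw [← h, map_one]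
    rfl

end Pool.Agent.Zk74.KG
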