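import Pool.Agent.Zk51.KT.Nil
import Pool.Agent.N64.AF.K2
import Pool.Agent.Zk74.KG.Defs

/-!
# Kimura finiteness of sums and tensor products
-/

set_option autoImplicit false
set_option linter.unusedSectionVars false
set_option backward.isDefEq.respectTransparency false
set_option backward.defeqAttrib.useBackward true

open CategoryTheory Limits MonoidalCategory
open Pool.Agent.Y112.SR Pool.Agent.Y112.KD Pool.Agent.R905 Pool.Agent.Zk51.KT

namespace Pool.Agent.Zk74.KG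

universe v u w

variable {C : Type u} [Category.{v} C] [Preadditive C] [Linear ℚ C] [MonoidalCategory C]
  [MonoidalPreadditive C] [MonoidalLinear ℚ C] [SymmetricCategory C] [RightRigidCategory C]
  [IsIdempotentComplete C] {K : Type w} [Field K] (R : SuperRealisation C K)

include R in
theorem kf_of_nil (hU : UnitQ C) {T : C} (hC : R.CPlus T) (hn : ∀ n, HomNil R (tp T n)) :
    IsKimuraFinite T := by
  have hc := R_charZero R
  have hT1 : HomNil R T := (hn 1).retract (λ_ T).inv (λ_ T).hom (by simp)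
  obtain ⟨E, O, i, r, i', r', h1, h2, h3, hE, hO⟩ := exists_parts R hC hT1
  have key : ∀ (P : C) (i : P ⟶ T) (r : T ⟶ P), i ≫ r = 𝟙 P → ∀ n, HomNil R (tp P n) := by
    intro P i r hir n
    refine (hn n).retract (tpm i n) (tpm r n) ?_
    rw [tpm_comp, hir, tpm_id]
  obtain ⟨n, hn1⟩ := Pool.Agent.N861.AF.asym_zero_of_nil R hU (E := E) 1 (by norm_num)
    (by rw [hE]; norm_num) (key E i r h1)
  obtain ⟨m, hm⟩ := Pool.Agent.N861.AF.asym_zero_of_nil R hU (E := O) (-1) (by norm_num)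
    (by rw [hO]; norm_num) (key O i' r' h2)
  rw [neg_neg] at hm
  exact (isKimuraFinite_iff T).2 ⟨E, O, i, r, i', r', h1, h2, h3, ⟨n, hn1⟩, m, hm⟩

include R in
theorem kf_of_dec (hU : UnitQ C) {T : C} (hC : R.CPlus T) (hD : Dec T) : IsKimuraFinite T :=
  kf_of_nil R hU hC fun n => (dec_tp hD n).homNil R hU

include R in
theorem kf_tensor (hU : UnitQ C) {M N : C} (hM : IsKimuraFinite M) (hN : IsKimuraFinite N) :
    IsKimuraFinite (M ⊗ N) :=
  kf_of_dec R hU (cplus_tensor R (hM.cplus R) (hN.cplus R))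
    ((dec_of_kimura hM).tensor (dec_of_kimura hN))

lemma dec_biprod [HasBinaryBiproducts C] {M N : C} (hM : Dec M) (hN : Dec N) : Dec (M ⊞ N) := by
  obtain ⟨ι, _, P, i, r, h1, h2, h3⟩ := hM
  obtain ⟨κ, _, Q, j, s, k1, k2, k3⟩ := hN
  refine ⟨ι ⊕ κ, inferInstance, fun a => Sum.elim P Q a,
    fun a => match a with
      | Sum.inl x => i x ≫ biprod.inl
      | Sum.inr y => j y ≫ biprod.inr,
    fun a => match a with
      | Sum.inl x => (biprod.fst : M ⊞ N ⟶ M) ≫ r x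
      | Sum.inr y => (biprod.snd : M ⊞ N ⟶ N) ≫ s y, ?_, ?_, ?_⟩
  · rintro (x | y)
    · change (i x ≫ biprod.inl) ≫ biprod.fst ≫ r x = 𝟙 _
      simp [h1]
    · change (j y ≫ biprod.inr) ≫ biprod.snd ≫ s y = 𝟙 _
      simp [k1]
  · rw [Fintype.sum_sum_type]
    change ∑ x, ((biprod.fst : M ⊞ N ⟶ M) ≫ r x) ≫ i x ≫ (biprod.inl : M ⟶ M ⊞ N) +
      ∑ y, ((biprod.snd : M ⊞ N ⟶ N) ≫ s y) ≫ j y ≫ (biprod.inr : N ⟶ M ⊞ N) = 𝟙 (M ⊞ N)
    have e1 : ∀ x, ((biprod.fst : M ⊞ N ⟶ M) ≫ r x) ≫ i x ≫ (biprod.inl : M ⟶ M ⊞ N) =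
        biprod.fst ≫ (r x ≫ i x) ≫ biprod.inl := fun x => by simp only [Category.assoc]
    have e2 : ∀ y, ((biprod.snd : M ⊞ N ⟶ N) ≫ s y) ≫ j y ≫ (biprod.inr : N ⟶ M ⊞ N) =
        biprod.snd ≫ (s y ≫ j y) ≫ biprod.inr := fun y => by simp only [Category.assoc]
    rw [Finset.sum_congr rfl fun x _ => e1 x, Finset.sum_congr rfl fun y _ => e2 y,
      ← Preadditive.comp_sum, ← Preadditive.sum_comp, ← Preadditive.comp_sum,
      ← Preadditive.sum_comp, h2, k2, Category.id_comp, Category.id_comp, biprod.total]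
  · rintro (x | y)
    · exact h3 x
    · exact k3 y

include R in
lemma cplus_biprod [HasBinaryBiproducts C] {M N : C} (hM : R.CPlus M) (hN : R.CPlus N) :
    R.CPlus (M ⊞ N) := by
  rw [cplus_iff] at hM hN ⊢
  obtain ⟨g, hg⟩ := hM
  obtain ⟨g', hg'⟩ := hN
  refine ⟨biprod.fst ≫ g ≫ (biprod.inl : M ⟶ M ⊞ N) + biprod.snd ≫ g' ≫ (biprod.inr : N ⟶ M ⊞ N), ?_⟩
  have h1 : R.H.map (biprod.fst ≫ (biprod.inl : M ⟶ M ⊞ N)) +
      R.H.map (biprod.snd ≫ (biprod.inr : N ⟶ M ⊞ N)) = 𝟙 _ := by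
    rw [← Functor.map_add, biprod.total, CategoryTheory.Functor.map_id]
  calc R.H.map (biprod.fst ≫ g ≫ (biprod.inl : M ⟶ M ⊞ N) +
        biprod.snd ≫ g' ≫ (biprod.inr : N ⟶ M ⊞ N))
      = (R.H.map (biprod.fst ≫ (biprod.inl : M ⟶ M ⊞ N)) +
      R.H.map (biprod.snd ≫ (biprod.inr : N ⟶ M ⊞ N))) ≫ R.par (M ⊞ N) := by
        rw [Functor.map_add, Preadditive.add_comp, Functor.map_comp, Functor.map_comp,
          Functor.map_comp, Functor.map_comp, Functor.map_comp, Functor.map_comp, hg, hg',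
          Category.assoc, Category.assoc, R.par_natural, R.par_natural]
    _ = _ := by rw [h1, Category.id_comp]

include R in
theorem kf_biprod [HasBinaryBiproducts C] (hU : UnitQ C) {M N : C} (hM : IsKimuraFinite M)
    (hN : IsKimuraFinite N) : IsKimuraFinite (M ⊞ N) :=
  kf_of_dec R hU (cplus_biprod R (hM.cplus R) (hN.cplus R))
    (dec_biprod (dec_of_kimura hM) (dec_of_kimura hN))

end Pool.Agent.Zk74.KG
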