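import Pool.Agent.Zk74.KG.Prod
import Pool.Agent.Zk74.KG.Dual

/-!
# Group actions and Kimura finiteness: the main theorem
-/

set_option autoImplicit false
set_option linter.unusedSectionVars false
set_option backward.isDefEq.respectTransparency false
set_option backward.defeqAttrib.useBackward true

open CategoryTheory Limits MonoidalCategory
open Pool.Agent.Y112.SR Pool.Agent.Y112.KD Pool.Agent.R905 Pool.Agent.Zk51.KT
open Pool.Agent.X252.GA Pool.Agent.X310.Mu

namespace Pool.Agent.Zk74.KG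

universe v u w

variable {C : Type u} [Category.{v} C] [Preadditive C] [Linear ℚ C] [MonoidalCategory C]
  [MonoidalPreadditive C] [MonoidalLinear ℚ C] [SymmetricCategory C] [RightRigidCategory C]
  [IsIdempotentComplete C] [HasBinaryBiproducts C] {K : Type w} [Field K]
  (R : SuperRealisation C K) {G : Type} [Group G] [Fintype G]

include R in
lemma kfq_iff (hU : UnitQ C) {M : C} (a : G →* End M) (H : Subgroup G) :
    (∀ T, IsQuot a H T → IsKimuraFinite T) ↔ nA H ∈ kI R hU a := by
  constructor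
  · intro h
    obtain ⟨T, hT⟩ := exists_quot a H
    exact (quot_iff R hU a hT).1 (h T hT)
  · intro h T hT
    exact (quot_iff R hU a hT).2 h

lemma mem_of_one (hU : UnitQ C) {M : C} (a : G →* End M)
    (h : (1 : MonoidAlgebra ℚ G) ∈ kI R hU a) (x : MonoidAlgebra ℚ G) : x ∈ kI R hU a := by
  have := kI_right R hU a 1 h x
  rwa [one_mul] at this

include R in
theorem dom (hU : UnitQ C) {M : C} (a : G →* End M) {H : Subgroup G} {ι : Type}
    {D : ι → Subgroup G} (hD : Dominated H D)
    (h : ∀ j T, IsQuot a (D j) T → IsKimuraFinite T) : ∀ T, IsQuot a H T → IsKimuraFinite T :=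
  (kfq_iff R hU a H).2 (mem_of_dominated hD _ (kI_right R hU a)
    fun j => (kfq_iff R hU a (D j)).1 (h j))

include R in
theorem dom_one (hU : UnitQ C) {M : C} (a : G →* End M) {ι : Type}
    {D : ι → Subgroup G} (hD : Dominated (⊥ : Subgroup G) D) :
    IsKimuraFinite M ↔ ∀ j T, IsQuot a (D j) T → IsKimuraFinite T := by
  constructor
  · intro h j
    exact (kfq_iff R hU a (D j)).2 (mem_of_one R hU a ((one_iff R hU a).1 h) _)
  · intro h
    exact (one_iff R hU a).2 (one_mem_of_dominated hD _ (kI_right R hU a)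
      fun j => (kfq_iff R hU a (D j)).1 (h j))

include R in
theorem invol (hU : UnitQ C) {M : C} (a : G →* End M) {c : G} (hc : c * c = 1) :
    IsKimuraFinite M ↔ (∀ T, IsQuot a (Subgroup.zpowers c) T → IsKimuraFinite T) ∧
      ∀ T, IsQuot a (comms c) T → IsKimuraFinite T := by
  rw [dom_one R hU a (dominated_two hc ⊥)]
  constructor
  · intro h
    exact ⟨h true, h false⟩
  · rintro ⟨h1, h2⟩ (_ | _)
    · exact h2
    · exact h1

include R in
theorem struct (hU : UnitQ C) {M : C} (a : G →* End M) (h0 : ¬ IsKimuraFinite M)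
    (hP : ∀ P : Subgroup G, (Nat.card P).Prime → ∀ T, IsQuot a P T → IsKimuraFinite T) :
    FixedPointFree G ∧ Function.Injective a ∧
    (∀ (K : Subgroup G) (p q : ℕ), p.Prime → q.Prime → Nat.card K = p * q → IsCyclic K) ∧
    (∀ K : Subgroup G, (∀ a ∈ K, ∀ b ∈ K, a * b = b * a) → IsCyclic K) ∧
    ∀ σ τ : G, orderOf σ = 2 → orderOf τ = 2 → σ = τ := by
  obtain ⟨h1, h2, h3, h4, h5⟩ := structure_of_ideal (kI R hU a) (kI_right R hU a)
    (fun h => h0 ((one_iff R hU a).2 h)) fun P hp => (kfq_iff R hU a P).1 (hP P hp)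
  refine ⟨h1, fun g h hgh => h2 g h ?_, h3, h4, h5⟩
  have e : (act a (MonoidAlgebra.single g (1 : ℚ) - MonoidAlgebra.single h 1) : M ⟶ M) = 0 := by
    rw [map_sub, act_single, act_single, hgh, sub_self]
  obtain ⟨Q, hQ, u, v, h6⟩ := (mem_kI R hU a 0).1 (Submodule.zero_mem _)
  exact (mem_kI R hU a _).2 ⟨Q, hQ, 0, 0, by rw [e, zero_comp]⟩

lemma diag_quot_retract {M N T : C} (a : G →* End M) (b : G →* End N) {H : Subgroup G}
    (hT : IsQuot (diag a b) H T) : ∃ (i : T ⟶ M ⊗ N) (r : M ⊗ N ⟶ T), i ≫ r = 𝟙 T := by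
  obtain ⟨i, r, h1, -⟩ := hT
  exact ⟨i, r, h1⟩

include R in
theorem prod_up (hU : UnitQ C) {M N T : C} (a : G →* End M) (b : G →* End N) {H : Subgroup G}
    (hT : IsQuot (diag a b) H T) (hM : IsKimuraFinite M) (hN : IsKimuraFinite N) :
    IsKimuraFinite T := by
  obtain ⟨i, r, h1⟩ := diag_quot_retract a b hT
  exact (kf_tensor R hU hM hN).retract R hU i r h1

include R in
theorem prod_down (hU : UnitQ C) {M N T : C} (a : G →* End M) (b : G →* End N)
    (hT : IsQuot (diag a b) ⊤ T) (hN : IsKimuraFinite N) (hK : IsKimuraFinite T) {H : Subgroup G}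
    (hs : Sees R b H) : ∀ P, IsQuot a H P → IsKimuraFinite P :=
  (kfq_iff R hU a H).2 (descent R hU a b hT (kf_tensor R hU hK (kf_dual R hU hN)) (hN.cplus R) H hs)

include R in
theorem prod_down' (hU : UnitQ C) {M N T : C} (a : G →* End M) (b : G →* End N)
    (hT : IsQuot (diag a b) ⊤ T) (hN : R.CPlus N) (hK : IsKimuraFinite (T ⊗ Nᘁ)) {H : Subgroup G}
    (hs : Sees R b H) : ∀ P, IsQuot a H P → IsKimuraFinite P :=
  (kfq_iff R hU a H).2 (descent R hU a b hT hK hN H hs)

include R in
theorem prod_iff (hU : UnitQ C) {M N T : C} (a : G →* End M) (b : G →* End N)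
    (hT : IsQuot (diag a b) ⊤ T) (hN : IsKimuraFinite N) (hs : Sees R b (⊥ : Subgroup G)) :
    IsKimuraFinite T ↔ IsKimuraFinite M := by
  constructor
  · intro h
    have h1 := descent R hU a b hT (kf_tensor R hU h (kf_dual R hU hN)) (hN.cplus R) ⊥ hs
    rw [nA_bot] at h1
    exact (one_iff R hU a).2 h1
  · intro h
    exact prod_up R hU a b hT h hN

end Pool.Agent.Zk74.KG
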