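import Pool.Agent.Zk74.KG.Ideal

/-!
# Isotrivial products
-/

set_option autoImplicit false
set_option linter.unusedSectionVars false
set_option backward.isDefEq.respectTransparency false
set_option backward.defeqAttrib.useBackward true

open CategoryTheory Limits MonoidalCategory
open Pool.Agent.Y112.SR Pool.Agent.Y112.KD Pool.Agent.R905 Pool.Agent.Zk51.KT
open Pool.Agent.X252.GA

namespace Pool.Agent.Zk74.KG

universe v u w

variable {C : Type u} [Category.{v} C] [Preadditive C] [Linear ℚ C] [MonoidalCategory C]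
  [MonoidalPreadditive C] [MonoidalLinear ℚ C] [SymmetricCategory C] [RightRigidCategory C]
  [IsIdempotentComplete C] [HasBinaryBiproducts C] {K : Type w} [Field K]
  (R : SuperRealisation C K) {G : Type} [Group G] [Fintype G]

/-- The partial trace of a composite factors through `T ⊗ N^∨`. -/
lemma ptr_factor {M N T : C} (r : M ⊗ N ⟶ T) (i : T ⟶ M ⊗ N) :
    ptr (r ≫ i) = ((ρ_ M).inv ≫ M ◁ η_ N Nᘁ ≫ (α_ M N Nᘁ).inv ≫ r ▷ Nᘁ) ≫
      (i ▷ Nᘁ ≫ (α_ M N Nᘁ).hom ≫ M ◁ ((β_ N Nᘁ).hom ≫ ε_ N Nᘁ) ≫ (ρ_ M).hom) := by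
  unfold ptr
  rw [comp_whiskerRight]
  simp only [Category.assoc]

/-- the element `∑ tr (b(g) y) g` -/
noncomputable def uel (hU : UnitQ C) {N : C} (b : G →* End N) (y : N ⟶ N) : MonoidAlgebra ℚ G :=
  ∑ g, MonoidAlgebra.single g (trq hU N ((b g : N ⟶ N) ≫ y : N ⟶ N))

include R in
lemma uel_mem (hU : UnitQ C) {M N T : C} (a : G →* End M) (b : G →* End N)
    (hT : IsQuot (diag a b) ⊤ T) (hK : IsKimuraFinite (T ⊗ Nᘁ)) (y : N ⟶ N) :
    uel hU b y ∈ kI R hU a := by
  classical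
  obtain ⟨i, r, h1, h2⟩ := hT
  have h3 : (act a (uel hU b y) : M ⟶ M) =
      ptr (((Nat.card (⊤ : Subgroup G) : ℚ) • r) ≫ (i ≫ M ◁ y)) := by
    have e1 : ((Nat.card (⊤ : Subgroup G) : ℚ) • r) ≫ (i ≫ M ◁ y) =
        ∑ g, ((a g : M ⟶ M) ⊗ₘ ((b g : N ⟶ N) ≫ y)) := by
      rw [Linear.smul_comp, ← Category.assoc, h2, ← Linear.smul_comp]
      have e2 : (Nat.card (⊤ : Subgroup G) : ℚ) • avg (diag a b) ⊤ =
          ∑ g, ((a g : M ⟶ M) ⊗ₘ (b g : N ⟶ N)) := by
        unfold avg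
        rw [smul_smul, mul_inv_cancel₀ (card_ne _), one_smul]
        refine Finset.sum_congr ?_ fun g _ => rfl
        ext g
        simp
      rw [e2, Preadditive.sum_comp]
      refine Finset.sum_congr rfl fun g _ => ?_
      rw [MonoidalCategory.tensorHom_def, MonoidalCategory.tensorHom_def,
        MonoidalCategory.whiskerLeft_comp, Category.assoc]
    rw [e1]
    have e3 : ptr (∑ g, ((a g : M ⟶ M) ⊗ₘ ((b g : N ⟶ N) ≫ y))) =
        ∑ g, ptr ((a g : M ⟶ M) ⊗ₘ ((b g : N ⟶ N) ≫ y)) :=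
      map_sum (ptrL M N) _ _
    rw [e3]
    unfold uel
    rw [act_sum]
    refine Finset.sum_congr rfl fun g _ => ?_
    exact (ptr_tensor (a g : M ⟶ M) ((b g : N ⟶ N) ≫ y) _ (trq_spec hU _)).symm
  exact (mem_kI R hU a _).2 ⟨T ⊗ Nᘁ, hK, _, _, h3.trans (ptr_factor _ _)⟩

include R in
/-- An idempotent with vanishing trace. -/
lemma map_eq_zero (hU : UnitQ C) {N : C} {e g : N ⟶ N} (he : e ≫ e = e)
    (hg : R.H.map g = R.par N) (h : trq hU N (e ≫ g : N ⟶ N) = 0) : R.H.map e = 0 := by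
  have hc := R_charZero R
  have hfin := R.finite N
  have h1 := real_tr R hU (e ≫ g)
  rw [h, Functor.map_comp, hg, Category.assoc, R.par_sq, Category.comp_id] at h1
  have h2 : IsIdempotentElem (R.H.map e).hom := by
    have h3 : R.H.map e ≫ R.H.map e = R.H.map e := by rw [← Functor.map_comp, he]
    have h4 := congrArg ModuleCat.Hom.hom h3
    rw [ModuleCat.hom_comp] at h4
    exact h4
  have h5 : LinearMap.trace K (R.H.obj N) (R.H.map e).hom = 0 := by
    rw [← h1]; norm_num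
  have h6 := LinearMap.IsIdempotentElem.eq_zero_of_trace_eq_zero h2 h5
  exact ModuleCat.hom_ext h6

include R in
/-- **Descent from the isotrivial product.** -/
theorem descent (hU : UnitQ C) {M N T : C} (a : G →* End M) (b : G →* End N)
    (hT : IsQuot (diag a b) ⊤ T) (hK : IsKimuraFinite (T ⊗ Nᘁ)) (hC : R.CPlus N)
    (H : Subgroup G) (hs : Sees R b H) : nA H ∈ kI R hU a := by
  obtain ⟨y, hy⟩ := (cplus_iff R N).1 hC
  refine nA_mem (kI R hU a) (kI_right R hU a) (uel_mem R hU a b hT hK y) H fun f hf hfu => ?_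
  -- the idempotent `f†` acts on `N` with trace zero
  have h1 : trq hU N ((act b (dag f) : N ⟶ N) ≫ y : N ⟶ N) = 0 := by
    have h2 : (f * uel hU b y).coeff 1 = 0 := by rw [hfu]; simp
    rw [coeff_mul'] at h2
    have h3 : (act b (dag f) : N ⟶ N) ≫ y = ∑ g, f.coeff g⁻¹ • ((b g : N ⟶ N) ≫ y) := by
      unfold dag
      rw [act_sum, Preadditive.sum_comp]
      exact Finset.sum_congr rfl fun g _ => Linear.smul_comp _ _ _ _ _ _
    have h4 : trq hU N ((act b (dag f) : N ⟶ N) ≫ y : N ⟶ N) =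
        ∑ g, f.coeff g⁻¹ * trq hU N ((b g : N ⟶ N) ≫ y : N ⟶ N) := by
      rw [h3]
      refine (map_sum (trq hU N) (fun g => (f.coeff g⁻¹ • ((b g : N ⟶ N) ≫ y) : N ⟶ N)) _).trans ?_
      exact Finset.sum_congr rfl fun g _ => (trq hU N).map_smul _ _
    rw [h4, ← h2]
    refine Fintype.sum_equiv (Equiv.inv G) _ _ fun g => ?_
    rw [Equiv.inv_apply]
    congr 1
    unfold uel
    rw [coeff_sum']
    classical
    rw [Finset.sum_eq_single g]
    · simp
    · intro g' _ hg'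
      simp [MonoidAlgebra.coeff_single, Finsupp.single_apply, hg']
    · simp
  have h5 : (act b (dag f) : N ⟶ N) ≫ (act b (dag f) : N ⟶ N) = (act b (dag f) : N ⟶ N) := by
    rw [← act_mul, ← dag_mul, hf.eq]
  have h6 := map_eq_zero R hU h5 hy h1
  have h7 := hs (fun g => f.coeff g) (by
    have : ∑ g, f.coeff g⁻¹ • (b g : N ⟶ N) = (act b (dag f) : N ⟶ N) := by
      unfold dag
      rw [act_sum]
    rw [this, h6])
  apply ext'
  intro g
  rw [coeff_mul_nA, h7 g]
  simp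

end Pool.Agent.Zk74.KG
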