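import Pool.Agent.Zk74.KG.Num

/-!
# Descent from isotrivial products: direct summands
-/

set_option autoImplicit false
set_option linter.unusedSectionVars false
set_option backward.isDefEq.respectTransparency false
set_option backward.defeqAttrib.useBackward true

open CategoryTheory Limits MonoidalCategory
open Pool.Agent.Y112.SR Pool.Agent.Y112.KD Pool.Agent.R905 Pool.Agent.Zk51.KT
open Pool.Agent.X252.GA Pool.Agent.Y116.MT

namespace Pool.Agent.Zk74.KG

universe v u w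

/-- `A` is a direct summand of a finite sum of copies of `B`. -/
def SummandOfSum {C : Type u} [Category.{v} C] [Preadditive C] (A B : C) : Prop :=
  ∃ (k : ℕ) (p : Fin k → (A ⟶ B)) (q : Fin k → (B ⟶ A)), ∑ j, p j ≫ q j = 𝟙 A

variable {C : Type u} [Category.{v} C] [Preadditive C] [Linear ℚ C] [MonoidalCategory C]
  [MonoidalPreadditive C] [MonoidalLinear ℚ C] [SymmetricCategory C] [RightRigidCategory C]
  [IsIdempotentComplete C] [HasBinaryBiproducts C] {G : Type} [Group G] [Fintype G]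

/-- The elements of the group ring whose action factors through sums of copies of `B`. -/
noncomputable def fI {M : C} (a : G →* End M) (B : C) : Ideal (MonoidAlgebra ℚ G) where
  carrier := {x | ∃ (k : ℕ) (p : Fin k → (M ⟶ B)) (q : Fin k → (B ⟶ M)),
    (act a x : M ⟶ M) = ∑ j, p j ≫ q j}
  add_mem' := by
    rintro x y ⟨k, p, q, h⟩ ⟨l, p', q', h'⟩
    refine ⟨k + l, Fin.append p p', Fin.append q q', ?_⟩
    rw [Fin.sum_univ_add]
    simp only [Fin.append_left, Fin.append_right]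
    rw [← h, ← h', map_add]
  zero_mem' := by
    refine ⟨0, Fin.elim0, Fin.elim0, ?_⟩
    rw [map_zero]
    simp
  smul_mem' := by
    rintro x y ⟨k, p, q, h⟩
    refine ⟨k, p, fun j => q j ≫ (act a x : M ⟶ M), ?_⟩
    rw [smul_eq_mul, act_mul, h, Preadditive.sum_comp]
    simp only [Category.assoc]

lemma mem_fI {M : C} (a : G →* End M) (B : C) (x : MonoidAlgebra ℚ G) :
    x ∈ fI a B ↔ ∃ (k : ℕ) (p : Fin k → (M ⟶ B)) (q : Fin k → (B ⟶ M)),
      (act a x : M ⟶ M) = ∑ j, p j ≫ q j := Iff.rfl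

lemma fI_right {M : C} (a : G →* End M) (B : C) : ∀ x ∈ fI a B, ∀ y, x * y ∈ fI a B := by
  rintro x ⟨k, p, q, h⟩ y
  refine ⟨k, fun j => (act a y : M ⟶ M) ≫ p j, q, ?_⟩
  rw [act_mul, h, Preadditive.comp_sum]
  simp only [Category.assoc]

lemma uel_mem_fI (hU : UnitQ C) {M N T : C} (a : G →* End M) (b : G →* End N)
    (hT : IsQuot (diag a b) ⊤ T) (y : N ⟶ N) : uel hU b y ∈ fI a (T ⊗ Nᘁ) := by
  classical
  obtain ⟨i, r, h1, h2⟩ := hT
  have h3 : (act a (uel hU b y) : M ⟶ M) =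
      ptr (((Nat.card (⊤ : Subgroup G) : ℚ) • r) ≫ (i ≫ M ◁ y)) := by
    have e1 : ((Nat.card (⊤ : Subgroup G) : ℚ) • r) ≫ (i ≫ M ◁ y) =
        ∑ g, ((a g : M ⟶ M) ⊗ₘ ((b g : N ⟶ N) ≫ y)) := by
      rw [Linear.smul_comp, ← Category.assoc, h2, ← Linear.smul_comp]
      have e2 : (Nat.card (⊤ : Subgroup G) : ℚ) • avg (diag a b) ⊤ =
          ∑ g, ((a g : M ⟶ M) ⊗ₘ (b g : N ⟶ N)) := by
        unfold avg
        rw [smul_smul, mul_inv_cancel₀ (card_ne _), one_smul]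
        refine Finset.sum_congr ?_ fun g _ => rfl
        ext g
        simp
      rw [e2, Preadditive.sum_comp]
      refine Finset.sum_congr rfl fun g _ => ?_
      rw [MonoidalCategory.tensorHom_def, MonoidalCategory.tensorHom_def,
        MonoidalCategory.whiskerLeft_comp, Category.assoc]
    rw [e1]
    have e3 : ptr (∑ g, ((a g : M ⟶ M) ⊗ₘ ((b g : N ⟶ N) ≫ y))) =
        ∑ g, ptr ((a g : M ⟶ M) ⊗ₘ ((b g : N ⟶ N) ≫ y)) :=
      map_sum (ptrL M N) _ _
    rw [e3]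
    unfold uel
    rw [act_sum]
    refine Finset.sum_congr rfl fun g _ => ?_
    exact (ptr_tensor (a g : M ⟶ M) ((b g : N ⟶ N) ≫ y) _ (trq_spec hU _)).symm
  obtain ⟨p, q, hpq⟩ : ∃ (p : M ⟶ T ⊗ Nᘁ) (q : T ⊗ Nᘁ ⟶ M),
      (act a (uel hU b y) : M ⟶ M) = p ≫ q := ⟨_, _, h3.trans (ptr_factor _ _)⟩
  exact ⟨1, fun _ => p, fun _ => q, by rw [Fin.sum_univ_one, hpq]⟩

/-- **The fibre as a direct summand.** -/
theorem summand (hU : UnitQ C) {M N T : C} (a : G →* End M) (b : G →* End N)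
    (hT : IsQuot (diag a b) ⊤ T) {H : Subgroup G} (hs : SeesNum b H) {Q : C} (hQ : IsQuot a H Q) :
    SummandOfSum Q (T ⊗ Nᘁ) := by
  obtain ⟨e, he, hi, hex⟩ := exists_idem (fI a (T ⊗ Nᘁ)) (fI_right a (T ⊗ Nᘁ))
  have h0 : (1 - e) * nA H = 0 := by
    have h7 := hs (fun g => (1 - e : MonoidAlgebra ℚ G).coeff g) (fun y => by
      rw [← act_dag N b (1 - e), tr_zero_iff hU, ← coeff_uel, sub_mul, one_mul,
        hex _ (uel_mem_fI hU a b hT y), sub_self]
      simp)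
    apply ext'
    intro g
    rw [coeff_mul_nA, h7 g]
    simp
  rw [sub_mul, one_mul, sub_eq_zero] at h0
  have h8 : nA H ∈ fI a (T ⊗ Nᘁ) := by
    rw [h0]
    exact fI_right a _ e he _
  obtain ⟨k, p, q, h⟩ := h8
  obtain ⟨i, r, h1, h2⟩ := hQ
  refine ⟨k, fun j => i ≫ ((Nat.card H : ℚ)⁻¹ • p j), fun j => q j ≫ r, ?_⟩
  have h3 : ∑ j, ((Nat.card H : ℚ)⁻¹ • p j) ≫ q j = avg a H := by
    rw [avg_eq, h, Finset.smul_sum]
    exact Finset.sum_congr rfl fun j _ => Linear.smul_comp _ _ _ _ _ _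
  calc ∑ j, (i ≫ ((Nat.card H : ℚ)⁻¹ • p j)) ≫ q j ≫ r
      = i ≫ (∑ j, ((Nat.card H : ℚ)⁻¹ • p j) ≫ q j) ≫ r := by
        rw [Preadditive.sum_comp, Preadditive.comp_sum]
        simp only [Category.assoc]
    _ = (i ≫ r) ≫ (i ≫ r) := by rw [h3, ← h2]; simp only [Category.assoc]
    _ = 𝟙 Q := by rw [h1, Category.id_comp]

end Pool.Agent.Zk74.KG
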